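import Pool.Agent.T2H10.DN.PubH
import Pool.Agent.T2H10.DN.SumAll
import Pool.Agent.W52.TQ.Univ
import Pool.Agent.W52.TQ.Loc
import Pool.Agent.W503.TQ.Uni

/-!
# Regular initial velocities are dense in `B^{-1}_{∞,q}` for every `q > 2`

Let `Ω` be a bounded connected open set in `ℝ³` (no regularity of the boundary is assumed). Suppose
that the Navier-Stokes equations with a given force have a strong solution for one smooth initial
velocity `g`, on an interval `[0,T]` or for all times. Let `ψ` be any smooth vector field with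
compact support in `Ω` and with integral zero, that is, `curl ψ` has no angular momentum. There is
no restriction on the size of `ψ`. For every `q > 2` and `ε > 0` there is a divergence free test
field `w` with norm at most `ε` in `B^{-1}_{∞,q}(ℝ³)` such that there is also a strong solution, on
the same interval, with the initial velocity `g + curl ψ + w`; and after the time `ε` it is as
close as we please to the solution with the initial velocity `g`. In particular, if there is no
force and `g = 0`, then the solution with the initial velocity `curl ψ + w` is strong for all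
times and at rest up to `ε` after the time `ε`.

The spaces `B^{-1}_{∞,q}` are scale invariant. The condition `q > 2` is natural: if `w` is small in
`B^{-1}_{∞,2}` or in `BMO⁻¹`, then the flows with the initial velocities `curl ψ` and `curl ψ + w`
are close to each other, at least in the whole space (Koch and Tataru).

The field `w` is a sum of waves of very different high frequencies. The waves live only for a
short time, and the mean force which they exert stops the flow: `-curl ψ` is a finite sum of mean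
forces `-div (A ⊗ A + B ⊗ B) - ∇q` of plane waves with curved phases `φ`, `|∇φ| = 1`, and amplitudes
`A`, `B` orthogonal to `∇φ`. Each wave is constructed by a two-scale expansion, with three terms,
around the smooth initial velocity, and its projection to divergence free fields is replaced by a
test field; the residual is then so small in comparison with the size of the second derivatives
that a perturbation theorem applies in the frame of weak solutions in `Ω`.
-/

set_option autoImplicit false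

open MeasureTheory Set
open scoped InnerProductSpace ENNReal ContDiff

namespace Pool.Agent.Results.MP_fd8964_an.DenseRegularData

open H772R2.NS.Pub Pool.Agent.W795.TQ
open Pool.Agent.T2H10.DN (curl besov)

/-- On each of the intervals `[0,T]`, `T ∈ I`, `u` is a strong solution of the Navier-Stokes
equations in `Ω` with viscosity `ν` and force `F`, and there is one bound of `∂ₜu` in
`L^∞(0,T; L²)` for all `T ∈ I`. -/
def StrongOn (Ω : Set R3) (ν : ℝ) (I : Set ℝ) (F : ℝ → L2 Ω Mat) (u : ℝ → L2 Ω R3) : Prop :=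
  ∃ Y : ℝ, ∀ T ∈ I, ∃ (u' : ℝ → L2 Ω R3) (G G' : ℝ → L2 Ω Mat), IsStrong Ω ν T F u u' G G' ∧
    ∀ᵐ t ∂(volume.restrict (Ioc 0 T)), ‖u' t‖ ≤ Y

/-- Let `Ω` be bounded, open and connected, `ν > 0`, `q > 2`, let `I` be a nonempty set of positive
numbers (for instance `{T}` or `(0,∞)`), let the force be given by `⟨f(t), φ⟩ = (F(t), ∇φ)` with `F`
in `H¹(0,T; L²)`, uniformly bounded, for `T ∈ I`, and `f(0) ∈ L²`. Let `g` be a divergence free test
field and `U` a strong solution on `[0,T]`, for each `T ∈ I`, with `U(0) = g`. Let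
`ψ ∈ C_c^∞(Ω; ℝ³)` with `∫ ψ = 0`, and `ε > 0`. There are a divergence free test field `w` with norm
at most `ε` in `B^{-1}_{∞,q}` and `u` which is, for each `T ∈ I`, a strong solution on `[0,T]` with
`u(0) = g + curl ψ + w`, and the only Leray-Hopf solution on `[0,T]` with this initial velocity, and
`‖u(t) - U(t)‖ ≤ ε` in `L²` for `ε ≤ t ≤ T`. -/
theorem result :
    ∀ (Ω : Set R3), IsOpen Ω → Bornology.IsBounded Ω → IsConnected Ω →
    ∀ (ν q : ℝ), 0 < ν → 2 < q →
    ∀ (I : Set ℝ), I.Nonempty → (∀ T ∈ I, 0 < T) →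
    ∀ (F F' : ℝ → L2 Ω Mat) (M : ℝ),
      (∀ T ∈ I, IsH1 T F F' ∧ (∫ t in (0 : ℝ)..T, ‖F t‖ ^ 2) ≤ M ∧
        (∫ t in (0 : ℝ)..T, ‖F' t‖ ^ 2) ≤ M) →
      (∃ h : L2 Ω R3, ∀ φ, IsTest Ω φ →
        (∫ x in Ω, ⟪(F 0).fn x, jac φ x⟫_ℝ) = ∫ x in Ω, ⟪h.fn x, φ x⟫_ℝ) →
    ∀ (g : R3 → R3) (U : ℝ → L2 Ω R3), IsTest Ω g → IsClass (U 0) g → StrongOn Ω ν I F U →
    ∀ ψ : R3 → R3, ContDiff ℝ ∞ ψ → HasCompactSupport ψ → tsupport ψ ⊆ Ω →
      (∀ i, ∫ x, ⟪e i, ψ x⟫_ℝ = 0) → ∀ ε : ℝ, 0 < ε →
    ∃ w : R3 → R3, IsTest Ω w ∧ besov q w ≤ ENNReal.ofReal ε ∧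
      ∃ u : ℝ → L2 Ω R3, IsClass (u 0) (fun x => g x + curl ψ x + w x) ∧ StrongOn Ω ν I F u ∧
        ∀ T ∈ I, (∀ (v : ℝ → L2 Ω R3) (D : ℝ → L2 Ω Mat), IsLerayHopf Ω ν T F v D →
          v 0 = u 0 → ∀ t ∈ Icc 0 T, v t = u t) ∧ ∀ t ∈ Icc ε T, ‖u t - U t‖ ≤ ε := by
  intro Ω hΩ hb hc ν q hν hq I hne hI F F' M hF hF0 g U hg hU0 hU ψ h1 h2 h3 h4 ε hε
  obtain ⟨C, Fr⟩ := H772R2.NSR.exists_frame (Ω := (Ω : Set H772R2.NS.E3)) hΩ hb
  have hsum := Pool.Agent.T2H10.DN.sum_all (Ω := Ω) hΩ hb hc
    (Pool.Agent.T2H10.DN.cs_of h1 h2 h3) (Pool.Agent.T2H10.DN.mean_zero h4)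
  obtain ⟨h, hh⟩ := hF0
  obtain ⟨Y, hY⟩ := hU
  have hFc := fun T hT => Pool.Agent.T2H10.DN.fcont (hF T hT).1
  obtain ⟨w, hw, hBq, u, Y', hu0, hcl, hall⟩ := Pool.Agent.T2H10.DN.pub_all
    Pool.Agent.W52.TQ.proof_loc Pool.Agent.W503.TQ.proof_uni Pool.Agent.W52.TQ.proof_univ
    hΩ hb hν hq hne hI (fun T hT => (hFc T hT).2) (fun T hT => (hF T hT).2.1)
    (fun T hT => (hF T hT).2.2)
    ⟨h, Pool.Agent.T2H10.DN.forceW fun φ hφ => hh φ ((isTest_iff φ).mpr hφ)⟩
    ((isTest_iff g).mp hg) (Y := Y)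
    (fun T hT => by
      obtain ⟨U', G, G', hS, hb⟩ := hY T hT
      exact ⟨U', G, G', Pool.Agent.T2H10.DN.str_of_strong hΩ Fr (hI T hT) (hFc T hT).1 hS, hb⟩)
    hU0 h1 h2 h3 hsum hε
  refine ⟨w, (isTest_iff w).mpr hw, hBq, u, ?_, ⟨Y', fun T hT => ?_⟩, fun T hT => ⟨?_, hcl T hT⟩⟩
  · exact Filter.EventuallyEq.trans hu0 (Filter.Eventually.of_forall
      (Pool.Agent.T2H10.DN.add_aux (c' := curl ψ) (Pool.Agent.T2H10.DN.curl_eq h1)))
  · obtain ⟨v, u1, z, z1, S, hv, hb⟩ := hall T hT
    exact ⟨u1, z, z1, Pool.Agent.T2H10.DN.strong_all hΩ (hI T hT) S hv, hb⟩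
  · obtain ⟨v, u1, z, z1, S, hv, hb⟩ := hall T hT
    exact Pool.Agent.T2H10.DN.unique_all hΩ Pool.Agent.W503.TQ.proof_uni Fr hν (hI T hT)
      (hFc T hT).1 S hv

end Pool.Agent.Results.MP_fd8964_an.DenseRegularData
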