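import Pool.Agent.T2H10.LO.Fin

/-!
# Blow-up for the exact Navier-Stokes equations with a small energy conserving perturbation of lower
order

Let `Ω` be the spherical shell `1 < |x| < 2` and `V = H¹_{0,σ}(Ω)`. For every `δ ∈ (0, 1/2]` and
every `ε > 0` we construct a trilinear form `Q` in the gradients, antisymmetric in the last two
arguments, with `|Q(∇u,∇v,∇w)| ≤ ε ‖u‖^(1-δ) ‖∇u‖^δ ‖∇v‖ ‖∇w‖` on `V` (and the same with the weak
norm on `v` or on `w`), such that the equations
`(∂_t u, v) + ((u·∇)u, v) + Q(∇u,∇u,∇v) + ν (∇u, ∇v) = 0` for all `v ∈ V`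
blow up in finite time, for data `c φ` with a fixed field `φ` which is smooth up to the boundary, for
all viscosities `ν` and all `c ≥ ε ν`. Here the space `V`, the boundary condition, the viscous term
and the nonlinear term of the Navier-Stokes equations are exact; the perturbation conserves the
energy, its constant is arbitrarily small and its order is strictly lower than that of the
nonlinear term: the form `((u·∇)v, w)` satisfies such bounds with `δ = 1/2` (and with no smaller
`δ`), and a form which satisfies them with `δ = 0` cannot cause blow-up by itself.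

So a proof of global regularity cannot be based on properties of the equations which are stable
under arbitrarily small perturbations of this kind: the energy equality, the local theory, the
estimates and the scaling of the nonlinear term, the boundary condition, the spectrum of the
Stokes operator.

The solution is a sum of exact eigenfunctions of the Stokes operator, the toroidal fields
`f(|x|) (e₃ × x)` with wave numbers growing exponentially. The first part of the perturbation
compensates for the action of the nonlinear term on these modes, which is of lower order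
since the wave numbers are sparse; the second part is a cascade of the type of Newton's cradle
whose coupling is `32 ^ n` while the viscosity acts with a rate `κ ^ n`, `κ < 32` arbitrarily close
to `32`.
-/

set_option autoImplicit false

open MeasureTheory Set
open scoped InnerProductSpace ENNReal ContDiff

namespace Pool.Agent.Results.MP_fd8964_an.LowerOrderPerturbation

open H772R2.NS.Pub
open Pool.Agent.T2H10.LO (Shell IsSmallLower IsStrongQ)

/-- For every `δ` with `0 < δ ≤ 1/2` and every `ε > 0` there are a trilinear form `Q` which is an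
energy conserving perturbation of lower order with the constant `ε` (see `IsSmallLower`) and a
smooth field `φ`, divergence free in the shell `Ω`, zero on its boundary, with `‖φ‖ ≤ 1` in
`L²(Ω)`, such that for every `ν > 0` and every `c ≥ ε ν` there is `τ` with `0 < τ ≤ ε / c` such that
the Navier-Stokes equations in `Ω` with the additional term `Q` (see `IsStrongQ`), with viscosity
`ν`, without force and with the initial velocity `c φ`,
* have a solution `u` which is a strong solution on `[0,T]` for all `T < τ` and satisfies the energy
  equality, and whose gradient is unbounded in `L²` on `(0,τ)`;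
* have no strong solution on `[0,T]` for any `T ≥ τ`. -/
theorem result {δ ε : ℝ} (hδ : 0 < δ) (hδ1 : δ ≤ 1 / 2) (hε : 0 < ε) :
    ∃ Q : L2 Shell Mat → L2 Shell Mat → L2 Shell Mat → ℝ, IsSmallLower Shell δ ε Q ∧
      ∃ φ : R3 → R3, ContDiff ℝ ∞ φ ∧ (∀ x ∈ Shell, dvg φ x = 0) ∧
      (∀ x, ‖x‖ = 1 ∨ ‖x‖ = 2 → φ x = 0) ∧ (∫ x in Shell, ⟪φ x, φ x⟫_ℝ) ≤ 1 ∧
      ∀ ν : ℝ, 0 < ν → ∀ c : ℝ, ε * ν ≤ c →
        ∃ (τ : ℝ) (u u' : ℝ → L2 Shell R3) (G G' : ℝ → L2 Shell Mat), 0 < τ ∧ τ ≤ ε / c ∧
          IsClass (u 0) (c • φ) ∧
          (∀ T ∈ Ioo 0 τ, IsStrongQ Shell Q ν T u u' G G') ∧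
          (∀ t ∈ Ico 0 τ, ‖u t‖ ^ 2 / 2 + ν * (∫ s in (0 : ℝ)..t, ‖G s‖ ^ 2) = ‖u 0‖ ^ 2 / 2) ∧
          (∀ N : ℝ, ∃ t ∈ Ioo 0 τ, N ≤ ‖G t‖) ∧
          (∀ T, τ ≤ T → ∀ (v v' : ℝ → L2 Shell R3) (D D' : ℝ → L2 Shell Mat),
            IsStrongQ Shell Q ν T v v' D D' → ¬ IsClass (v 0) (c • φ)) :=
  Pool.Agent.T2H10.LO.final hδ hδ1 hε

end Pool.Agent.Results.MP_fd8964_an.LowerOrderPerturbation
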