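import Pool.Agent.T2H10.SC.Pub
import Pool.Agent.T2H10.SC.Geo

/-!
# Blow-up for the Navier-Stokes equations with thirteen linear constraints per scale

Let `Ω` be a bounded open set in `ℝ³`, `x₀ ∈ Ω`, and `V = H¹_{0,σ}(Ω)`. We construct smooth vector
fields `r n j`, `n = 0, 1, 2, …`, `j = 1, …, 13`, with `r n j` supported in the ball around `x₀`
with the radius `ε 4⁻ⁿ`, and consider the Navier-Stokes equations without force with the linear
constraints `∫ u · r n j = 0`, that is, in the closed subspace `W` of `V` defined by the
constraints: `u(t) ∈ W` and `∂_t u = P_W (ν Δu - (u·∇)u)`. The nonlinear term, the viscosity and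
the boundary condition are those of the Navier-Stokes equations. The subspace is very large: the
constraints do not concern the fields which vanish in the ball with radius `ε`, and only `13 N`
constraints concern the fields which vanish in the ball with radius `ε 4⁻ᴺ`; so at the spatial scale
`2⁻ᵏ` all but `O(k)` degrees of freedom are those of the Navier-Stokes equations. Nevertheless there
is a divergence free test field `φ`, with `‖φ‖ ≤ 1` in `L²`, such that for every viscosity `ν` and
every `c ≥ ε ν` the solution with the initial velocity `c φ` blows up in finite time. As `ε` is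
arbitrary, blow-up occurs for arbitrarily small Reynolds numbers.

The solution is a chain of fields `P n`, `S n` at the scales `4⁻ⁿ` and a reservoir field `Z`, like
Newton's cradle: the strain field `P n` amplifies the field `S n`, which takes its energy and gives
it to `P (n + 1)`, faster than the viscosity acts. The fields `r n j` are the parts of the
residual which the finitely many interactions of the fields of the generation `n` cause, and their
Laplacians. The Navier-Stokes equations in the span of these fields (the result `SubspaceBlowup`)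
are a closed system; here it is shown that its solutions also solve the equations in `W`, where
solutions are unique. For this, `Z` is divided into a sum `∑ ρ n Y n + ρo O` of fields with small
supports, and the ratios of their coefficients are locked by constraints; then every element of `W`
is the sum of an element of the closed span of the fields `P n`, `S n`, `Z` in `V` and one which
is orthogonal to all fields and to their interactions.
-/

set_option autoImplicit false

open MeasureTheory Set
open scoped InnerProductSpace ENNReal ContDiff

namespace Pool.Agent.Results.MP_fd8964_an.SparseConstraints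

open H772R2.NS.Pub
open Pool.Agent.T2H10.SC (graphC IsStrongC)

/-- For every bounded open set `Ω` in `ℝ³`, every `x₀ ∈ Ω` and every `ε > 0` there are smooth vector
fields `r n j` (`n ∈ ℕ`, `j = 1, …, 13`), `r n j` supported in the closed ball with center `x₀` and
radius `ε 4⁻ⁿ`, and a divergence free test field `φ` with `‖φ‖ ≤ 1` in `L²`, such that for every
`ν > 0` and every `c ≥ ε ν` there is `τ` with `0 < τ ≤ ε / c` such that the Navier-Stokes equations
with the constraints `∫ u · r n j = 0` (see `IsStrongC`), with viscosity `ν`, without force and with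
the initial velocity `c φ`,
* have a solution `u` which is a strong solution on `[0,T]` for all `T < τ` and satisfies the energy
  equality, and whose gradient is unbounded in `L²` on `(0,τ)`;
* have no strong solution on `[0,T]` for any `T ≥ τ`. -/
theorem result (Ω : Set R3) (hΩ : IsOpen Ω) (hb : Bornology.IsBounded Ω) {x0 : R3} (hx0 : x0 ∈ Ω)
    {ε : ℝ} (hε : 0 < ε) :
    ∃ r : ℕ → Fin 13 → R3 → R3, (∀ n j, ContDiff ℝ ∞ (r n j) ∧
        tsupport (r n j) ⊆ Metric.closedBall x0 (ε / 4 ^ n)) ∧
      ∃ φ : R3 → R3, IsTest Ω φ ∧ (∫ x in Ω, ⟪φ x, φ x⟫_ℝ) ≤ 1 ∧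
      ∀ ν : ℝ, 0 < ν → ∀ c : ℝ, ε * ν ≤ c →
        ∃ (τ : ℝ) (u u' : ℝ → L2 Ω R3) (G G' : ℝ → L2 Ω Mat), 0 < τ ∧ τ ≤ ε / c ∧
          IsClass (u 0) (c • φ) ∧
          (∀ T ∈ Ioo 0 τ, IsStrongC Ω r ν T u u' G G') ∧
          (∀ t ∈ Ico 0 τ, ‖u t‖ ^ 2 / 2 + ν * (∫ s in (0 : ℝ)..t, ‖G s‖ ^ 2) = ‖u 0‖ ^ 2 / 2) ∧
          (∀ N : ℝ, ∃ t ∈ Ioo 0 τ, N ≤ ‖G t‖) ∧
          (∀ T, τ ≤ T → ∀ (v v' : ℝ → L2 Ω R3) (D D' : ℝ → L2 Ω Mat),
            IsStrongC Ω r ν T v v' D D' → ¬ IsClass (v 0) (c • φ)) :=
  Pool.Agent.T2H10.SC.main_pub Ω hΩ hb hε (Pool.Agent.T2H10.SC.exists_cell hΩ hx0 (by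
    have : (0 : ℝ) < Pool.Agent.T2H10.epsv := by unfold Pool.Agent.T2H10.epsv; norm_num
    positivity) hε)

end Pool.Agent.Results.MP_fd8964_an.SparseConstraints
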