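import Pool.Agent.T2H10.Pub

/-!
# Blow-up for the Navier-Stokes equations restricted to a closed subspace

Let `Ω` be a nonempty bounded open set in `ℝ³` and `V = H¹_{0,σ}(Ω)`. We construct a sequence of
divergence free test fields `w_k`, orthogonal in `L²` and in `H¹₀`, with the following property.
Let `W` be the closed subspace of `V` spanned by the `w_k`, and consider the Navier-Stokes
equations without force in `W`: `u(t) ∈ W`, and the weak form of the equations holds for all test
fields in `W`, that is `∂_t u = P_W (ν Δu - (u·∇)u)`. The nonlinear term, the viscosity and the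
boundary condition are those of the Navier-Stokes equations. There is a linear combination `φ` of
the `w_k` such that for every viscosity `ν` and every `c ≥ ε ν` the solution with the initial
velocity `c φ` blows up in finite time; here `ε > 0` is prescribed and `φ` has at most the norm one
in `L²`, so that blow-up occurs for arbitrarily small Reynolds numbers if `W` is suitable.

The fields `w_k` are planar fields at the scales `4⁻ⁿ`. A strain field at the scale `4⁻ⁿ` amplifies
an inner field with an exponentially small seed; the inner field is a pair of fields, one in the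
strain field `n` and one, smaller by a factor `4`, in the strain field `n + 1`; it takes the energy
from the first strain field and gives it to the second, like in Newton's cradle, and this happens
faster than the viscosity acts. The seeds come from a fixed reservoir field.
-/

set_option autoImplicit false

open MeasureTheory Set
open scoped InnerProductSpace ENNReal ContDiff

namespace Pool.Agent.Results.MP_fd8964_an.SubspaceBlowup

open H772R2.NS.Pub
open Pool.Agent.T2H10 (graphIn IsStrongIn)

/-- For every nonempty bounded open set `Ω` in `ℝ³` and every `ε > 0` there are divergence free test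
fields `w k` (`k ∈ ℕ`), orthogonal in `L²` and in `H¹₀`, and a linear combination `φ` of them with
`‖φ‖ ≤ 1` in `L²`, such that for every `ν > 0` and every `c ≥ ε ν` there is `τ` with
`0 < τ ≤ ε / c` such that the Navier-Stokes equations restricted to the closed span `W` of the `w k`
in `V` (see `IsStrongIn`), with viscosity `ν`, without force and with the initial velocity `c φ`,
* have a solution `u` which is a strong solution on `[0,T]` for all `T < τ` and satisfies the energy
  equality, and whose gradient is unbounded in `L²` on `(0,τ)`;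
* have no strong solution on `[0,T]` for any `T ≥ τ`. -/
theorem result (Ω : Set R3) (hΩ : IsOpen Ω) (hb : Bornology.IsBounded Ω) (hne : Ω.Nonempty)
    {ε : ℝ} (hε : 0 < ε) :
    ∃ w : ℕ → R3 → R3, (∀ k, IsTest Ω (w k)) ∧
      (∀ k, 0 < ∫ x in Ω, ⟪w k x, w k x⟫_ℝ) ∧
      (∀ j k, j ≠ k → (∫ x in Ω, ⟪w j x, w k x⟫_ℝ) = 0 ∧
        (∫ x in Ω, ⟪jac (w j) x, jac (w k) x⟫_ℝ) = 0) ∧
      ∃ φ ∈ Submodule.span ℝ (range w), (∫ x in Ω, ⟪φ x, φ x⟫_ℝ) ≤ 1 ∧
      ∀ ν : ℝ, 0 < ν → ∀ c : ℝ, ε * ν ≤ c →
        ∃ (τ : ℝ) (u u' : ℝ → L2 Ω R3) (G G' : ℝ → L2 Ω Mat), 0 < τ ∧ τ ≤ ε / c ∧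
          IsClass (u 0) (c • φ) ∧
          (∀ T ∈ Ioo 0 τ, IsStrongIn Ω w ν T u u' G G') ∧
          (∀ t ∈ Ico 0 τ, ‖u t‖ ^ 2 / 2 + ν * (∫ s in (0 : ℝ)..t, ‖G s‖ ^ 2) = ‖u 0‖ ^ 2 / 2) ∧
          (∀ N : ℝ, ∃ t ∈ Ioo 0 τ, N ≤ ‖G t‖) ∧
          (∀ T, τ ≤ T → ∀ (v v' : ℝ → L2 Ω R3) (D D' : ℝ → L2 Ω Mat),
            IsStrongIn Ω w ν T v v' D D' → ¬ IsClass (v 0) (c • φ)) :=
  Pool.Agent.T2H10.main_pub Ω hΩ hb hne hε

end Pool.Agent.Results.MP_fd8964_an.SubspaceBlowup
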